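import Pool.Agent.P.MP_7b40b5_an.Defs

open Polynomial

namespace Pool.Agent.P.MP_7b40b5_an

variable {A : Type}

lemma Balanced.length_eq [DecidableEq A] {U V : List A} (h : Balanced U V) :
    U.length = V.length :=
  (List.perm_iff_count.mpr h).length_eq

lemma splitting_nil [DecidableEq A] {V : List A} {Qs : List (List A × List A)}
    (h : IsSplitting [] V Qs) : Qs = [] := by
  cases Qs with
  | nil => rfl
  | cons Q Qs =>
    exfalso
    obtain ⟨h1, h2, -⟩ := h
    have := (h1 Q (by simp)).1
    simp only [List.map_cons, List.flatten_cons, List.append_eq_nil_iff] at h2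
    exact this h2.1

lemma not_lt_of_minimal [DecidableEq A] {P Q : List A × List A} {a b c d : List A}
    (hP : MinimalBalanced P) (hQ : MinimalBalanced Q)
    (h1 : P.1 ++ a = Q.1 ++ b) (h2 : P.2 ++ c = Q.2 ++ d) : ¬ P.1.length < Q.1.length := by
  intro hlt
  have hP2 : P.1.length = P.2.length := hP.2.1.length_eq
  have hQ2 : Q.1.length = Q.2.length := hQ.2.1.length_eq
  have hpos : 1 ≤ P.1.length := List.length_pos_iff.mpr hP.1
  have e1 : Q.1.take P.1.length = P.1 := by
    have := congrArg (List.take P.1.length) h1
    rw [List.take_left', List.take_append_of_le_length hlt.le] at this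
    · exact this.symm
    · rfl
  have e2 : Q.2.take P.1.length = P.2 := by
    have := congrArg (List.take P.1.length) h2
    rw [List.take_left', List.take_append_of_le_length (by omega)] at this
    · exact this.symm
    · exact hP2.symm
  apply hQ.2.2 P.1.length hpos hlt
  rw [e1, e2]
  exact hP.2.1

lemma splitting_unique [DecidableEq A] (Ps : List (List A × List A)) :
    ∀ {U V : List A} {Qs : List (List A × List A)},
      IsSplitting U V Ps → IsSplitting U V Qs → Ps = Qs := by
  induction Ps with
  | nil =>
    intro U V Qs h1 h2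
    have : U = [] := by simpa using h1.2.1.symm
    subst this
    exact (splitting_nil h2).symm
  | cons P Ps ih =>
    intro U V Qs h1 h2
    cases Qs with
    | nil =>
      have : U = [] := by simpa using h2.2.1.symm
      subst this
      exact splitting_nil h1
    | cons Q Qs =>
      obtain ⟨a1, a2, a3⟩ := h1
      obtain ⟨b1, b2, b3⟩ := h2
      simp only [List.map_cons, List.flatten_cons] at a2 a3 b2 b3
      have hP := a1 P (by simp)
      have hQ := b1 Q (by simp)
      have e1 := a2.trans b2.symm
      have e2 := a3.trans b3.symm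
      have l1 := not_lt_of_minimal hP hQ e1 e2
      have l2 := not_lt_of_minimal hQ hP e1.symm e2.symm
      have hl : P.1.length = Q.1.length := by omega
      have hP2 : P.1.length = P.2.length := hP.2.1.length_eq
      have hQ2 : Q.1.length = Q.2.length := hQ.2.1.length_eq
      obtain ⟨f1, g1⟩ := List.append_inj e1 hl
      obtain ⟨f2, g2⟩ := List.append_inj e2 (by omega)
      have hPQ : P = Q := Prod.ext f1 f2
      subst hPQ
      congr 1
      exact ih (U := (Ps.map Prod.fst).flatten) (V := (Ps.map Prod.snd).flatten)
        ⟨fun x hx => a1 x (by simp [hx]), rfl, rfl⟩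
        ⟨fun x hx => b1 x (by simp [hx]), g1.symm, g2.symm⟩

/-- The set reachable from `e j₀` is the range of `e`. -/
lemma reachable_eq_range [DecidableEq A] {N : ℕ} (σ : A → List A)
    (e : Fin N → List A × List A) (S : Fin N → List (Fin N)) (j₀ : Fin N)
    (hS : ∀ j, IsSplitting (applySub σ (e j).1) (applySub (reversal σ) (e j).2) ((S j).map e))
    (hr : ∀ j, Relation.ReflTransGen (fun a b => b ∈ S a) j₀ j) :
    Set.range e = {Q | Relation.ReflTransGen (Step σ) (e j₀) Q} := by
  ext Q
  constructor
  · rintro ⟨j, rfl⟩
    have := hr j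
    induction this with
    | refl => exact Relation.ReflTransGen.refl
    | tail _ hbc ih => exact ih.tail ⟨_, hS _, List.mem_map_of_mem hbc⟩
  · intro h
    induction h with
    | refl => exact ⟨j₀, rfl⟩
    | tail _ hbc ih =>
      obtain ⟨j, rfl⟩ := ih
      obtain ⟨Ps, h1, h2⟩ := hbc
      rw [splitting_unique Ps h1 (hS j)] at h2
      obtain ⟨i, -, rfl⟩ := List.mem_map.mp h2
      exact ⟨i, rfl⟩

lemma applySub_prefix_mono (σ : A → List A) {U V : List A} (h : U <+: V) :
    applySub σ U <+: applySub σ V := by
  obtain ⟨t, rfl⟩ := h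
  simp only [applySub, List.flatMap_append]
  exact List.prefix_append _ _

lemma length_le_applySub (σ : A → List A) (hσ : ∀ i, σ i ≠ []) (U : List A) :
    U.length ≤ (applySub σ U).length := by
  induction U with
  | nil => simp [applySub]
  | cons a U ih =>
    have : 1 ≤ (σ a).length := List.length_pos_iff.mpr (hσ a)
    simp only [applySub, List.flatMap_cons, List.length_append, List.length_cons] at ih ⊢
    omega

lemma firstLetters_length (u : ℕ → A) (n : ℕ) : (firstLetters u n).length = n := by
  simp [firstLetters]

lemma firstLetters_take (u : ℕ → A) {m n : ℕ} (h : m ≤ n) :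
    (firstLetters u n).take m = firstLetters u m := by
  simp [firstLetters, ← List.map_take, List.take_range, h]

/-- Existence of the fixed point that starts with `a`, when `σ a = a b …`. -/
lemma exists_fixedPoint (σ : A → List A) (hσ : ∀ i, σ i ≠ []) (a b : A) (t : List A)
    (ha : σ a = a :: b :: t) :
    ∃ u : ℕ → A, IsFixedPoint σ u ∧
      ∀ k, firstLetters u ((applySub σ)^[k] [a]).length = (applySub σ)^[k] [a] := by
  set w : ℕ → List A := fun k => (applySub σ)^[k] [a] with hw
  have hsucc : ∀ k, w (k + 1) = applySub σ (w k) := fun k => by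
    simp only [hw, Function.iterate_succ_apply']
  have hpre : ∀ k, w k <+: w (k + 1) := by
    intro k
    induction k with
    | zero =>
      rw [hsucc]
      simp [hw, applySub, ha]
    | succ k ih =>
      rw [hsucc (k + 1)]
      nth_rewrite 1 [hsucc k]
      exact applySub_prefix_mono σ ih
  have hmono : ∀ k l, k ≤ l → w k <+: w l := by
    intro k l hkl
    induction hkl with
    | refl => exact List.prefix_refl _
    | step _ ih => exact ih.trans (hpre _)
  have hlen : ∀ k, k < (w k).length := by
    intro k
    induction k with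
    | zero => simp [hw]
    | succ k ih =>
      obtain ⟨s, hs⟩ := hmono 0 k (Nat.zero_le k)
      have h0 : w 0 = [a] := rfl
      rw [h0] at hs
      rw [hsucc, ← hs]
      rw [← hs] at ih
      have := length_le_applySub σ hσ s
      simp only [applySub, List.flatMap_append, List.flatMap_cons, List.flatMap_nil,
        List.append_nil, ha, List.length_append, List.length_cons, List.length_nil] at this ih ⊢
      omega
  let u : ℕ → A := fun n => (w n)[n]'(hlen n)
  have key : ∀ k, firstLetters u (w k).length = w k := by
    intro k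
    apply List.ext_getElem
    · simp [firstLetters]
    · intro n h1 h2
      simp only [firstLetters, List.getElem_map, List.getElem_range, u]
      rcases le_total n k with h | h
      · exact (hmono n k h).getElem (hlen n)
      · exact ((hmono k n h).getElem h2).symm
  refine ⟨u, ⟨hσ, fun n => ?_⟩, key⟩
  have h1 : firstLetters u n <+: w n := by
    rw [← key n, ← firstLetters_take u (hlen n).le]
    exact List.take_prefix _ _
  have h2 : applySub σ (firstLetters u n) <+: w (n + 1) := by
    rw [hsucc]
    exact applySub_prefix_mono σ h1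
  have h3 := h2.length_le
  rw [← firstLetters_take u h3, key (n + 1)]
  exact List.prefix_iff_eq_take.mp h2

instance [DecidableEq A] [Fintype A] (U V : List A) : Decidable (Balanced U V) := by
  unfold Balanced; infer_instance

instance [DecidableEq A] [Fintype A] (P : List A × List A) : Decidable (MinimalBalanced P) :=
  decidable_of_iff (P.1 ≠ [] ∧ Balanced P.1 P.2 ∧
    ∀ m, m < P.1.length → 1 ≤ m → ¬ Balanced (P.1.take m) (P.2.take m))
    ⟨fun h => ⟨h.1, h.2.1, fun m a b => h.2.2 m b a⟩,
      fun h => ⟨h.1, h.2.1, fun m a b => h.2.2 m b a⟩⟩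

instance [DecidableEq A] [Fintype A] (U V : List A) (Ps : List (List A × List A)) :
    Decidable (IsSplitting U V Ps) := by
  unfold IsSplitting; infer_instance

/-- If `q` divides the characteristic polynomial of `M`, some complex root of `q` is an
eigenvalue of `M`. -/
lemma exists_eigen_of_dvd {N : ℕ} (M : Matrix (Fin N) (Fin N) ℚ) (q : ℚ[X])
    (hq : 0 < q.degree) (h : q ∣ M.charpoly) :
    ∃ (z : ℂ) (v : Fin N → ℂ), aeval z q = 0 ∧ v ≠ 0 ∧
      ∀ i, z * v i - ∑ j, (M i j : ℂ) * v j = 0 := by
  have hq' : (q.map (algebraMap ℚ ℂ)).degree ≠ 0 := by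
    rw [Polynomial.degree_map]
    exact hq.ne'
  obtain ⟨z, hz⟩ := IsAlgClosed.exists_root _ hq'
  have hz' : aeval z q = 0 := by
    rwa [IsRoot.def, eval_map_algebraMap] at hz
  have h2 : aeval z M.charpoly = 0 := by
    obtain ⟨r, hr⟩ := h
    rw [hr, map_mul, hz', zero_mul]
  rw [← eval_map_algebraMap, ← Matrix.charpoly_map, Matrix.eval_charpoly,
    ← Matrix.exists_mulVec_eq_zero_iff] at h2
  obtain ⟨v, hv, h3⟩ := h2
  refine ⟨z, v, hz', hv, fun i => ?_⟩
  have := congrFun h3 i
  rw [Matrix.sub_mulVec] at this
  simpa [Matrix.mulVec, dotProduct, Matrix.scalar_apply, Matrix.diagonal_apply] using this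

end Pool.Agent.P.MP_7b40b5_an
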