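import Mathlib

/-!
Definitions for the balanced pair algorithm of a substitution and its reversal.
Finite words are lists, one-sided infinite words are functions on the natural numbers.
-/

open Polynomial

namespace Pool.Agent.P.MP_7b40b5_an

variable {A : Type}

/-- A substitution `σ`, extended to finite words by concatenation. -/
def applySub (σ : A → List A) (U : List A) : List A := U.flatMap σ

/-- The reversal of `σ`: the letter `i` goes to `σ i` written backwards. -/
def reversal (σ : A → List A) : A → List A := fun i => (σ i).reverse

/-- The incidence matrix: entry `(i, j)` is the number of occurrences of `i` in `σ j`. -/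
def incidence [DecidableEq A] (σ : A → List A) : Matrix A A ℚ :=
  Matrix.of fun i j => ((σ j).count i : ℚ)

/-- The word formed by the first `n` letters of the infinite word `u`. -/
def firstLetters (u : ℕ → A) (n : ℕ) : List A := (List.range n).map u

/-- `u` is a one-sided fixed point of `σ`: `σ` erases no letter, and the image of every initial
segment of `u` is again an initial segment of `u`. -/
def IsFixedPoint (σ : A → List A) (u : ℕ → A) : Prop :=
  (∀ i, σ i ≠ []) ∧
    ∀ n, applySub σ (firstLetters u n) = firstLetters u (applySub σ (firstLetters u n)).length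

/-- The pair `(U, V)` is balanced: every letter occurs equally often in `U` and in `V`. -/
def Balanced [DecidableEq A] (U V : List A) : Prop := ∀ a, U.count a = V.count a

/-- A minimal balanced pair: nonempty, balanced, and for `1 ≤ m < |U|` the initial segments of
length `m` are not balanced. -/
def MinimalBalanced [DecidableEq A] (P : List A × List A) : Prop :=
  P.1 ≠ [] ∧ Balanced P.1 P.2 ∧
    ∀ m, 1 ≤ m → m < P.1.length → ¬ Balanced (P.1.take m) (P.2.take m)

/-- `Ps = [P₁, …, P_r]` is the splitting of the pair `(U, V)` into minimal balanced pairs. -/
def IsSplitting [DecidableEq A] (U V : List A) (Ps : List (List A × List A)) : Prop :=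
  (∀ P ∈ Ps, MinimalBalanced P) ∧
    (Ps.map Prod.fst).flatten = U ∧ (Ps.map Prod.snd).flatten = V

/-- One step of the balanced pair algorithm for `σ` and its reversal: `Q` is one of the minimal
balanced pairs in the splitting of `(σ U, σ̂ V)`, where `P = (U, V)`. -/
def Step [DecidableEq A] (σ : A → List A) (P Q : List A × List A) : Prop :=
  ∃ Ps, IsSplitting (applySub σ P.1) (applySub (reversal σ) P.2) Ps ∧ Q ∈ Ps

/-- A Pisot number: a real algebraic integer `> 1` whose other conjugates have modulus `< 1`. -/
def IsPisotNumber (x : ℝ) : Prop :=
  1 < x ∧ IsIntegral ℤ x ∧ ∀ z : ℂ, aeval z (minpoly ℚ x) = 0 → z ≠ x → ‖z‖ < 1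

/-- `σ` is irreducible Pisot: the characteristic polynomial of its incidence matrix is
irreducible over `ℚ`, and the Perron-Frobenius eigenvalue (the real eigenvalue `x` that bounds
the modulus of all complex eigenvalues) is a Pisot number. -/
def IsIrreduciblePisot [DecidableEq A] [Fintype A] (σ : A → List A) : Prop :=
  Irreducible (incidence σ).charpoly ∧
    ∃ x : ℝ, IsPisotNumber x ∧ aeval x (incidence σ).charpoly = 0 ∧
      ∀ z : ℂ, aeval z (incidence σ).charpoly = 0 → ‖z‖ ≤ x

end Pool.Agent.P.MP_7b40b5_an
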