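import Pool.Agent.P.MP_7b40b5_an.Basic

open Polynomial

namespace Pool.Agent.P.MP_7b40b5_an

/-- Irreducibility of a monic cubic with constant term `±1` and no root `±1`. -/
lemma cubic_irreducible (a b c : ℤ) (hc : c = 1 ∨ c = -1) (h1 : 1 + a + b + c ≠ 0)
    (h2 : -1 + a - b + c ≠ 0) :
    Irreducible (X ^ 3 + C (a : ℚ) * X ^ 2 + C (b : ℚ) * X + C (c : ℚ) : ℚ[X]) := by
  apply irreducible_of_degree_le_three_of_not_isRoot
  · have : (X ^ 3 + C (a : ℚ) * X ^ 2 + C (b : ℚ) * X + C (c : ℚ) : ℚ[X]).natDegree = 3 := by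
      compute_degree!
    rw [this]
    simp
  · intro x hx
    have hm : (X ^ 3 + C a * X ^ 2 + C b * X + C c : ℤ[X]).Monic := by monicity!
    have hx' : x ^ 3 + a * x ^ 2 + b * x + c = 0 := by simpa using hx
    obtain ⟨n, hn⟩ := exists_integer_of_is_root_of_monic (K := ℚ) (r := x) hm (by simpa using hx')
    have hn1 : x = (n : ℚ) := by simpa using hn.1
    rw [hn1] at hx'
    have hz : n ^ 3 + a * n ^ 2 + b * n + c = 0 := by exact_mod_cast hx'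
    have hu : n = 1 ∨ n = -1 := by
      rcases hc with rfl | rfl
      · exact Int.eq_one_or_neg_one_of_mul_eq_one (v := -(n ^ 2 + a * n + b)) (by linarith)
      · exact Int.eq_one_or_neg_one_of_mul_eq_one (v := n ^ 2 + a * n + b) (by linarith)
    rcases hu with rfl | rfl
    · apply h1; linarith
    · apply h2; linarith

lemma pisot_of_cubic {k : ℕ} (σ : Fin k → List (Fin k)) (a b c : ℤ) (hc : c = 1 ∨ c = -1)
    (h1 : 1 + a + b + c ≠ 0) (h2 : -1 + a - b + c ≠ 0)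
    (hp : (incidence σ).charpoly = X ^ 3 + C (a : ℚ) * X ^ 2 + C (b : ℚ) * X + C (c : ℚ))
    (x : ℝ) (hx1 : 1 < x) (hx : x ^ 3 + a * x ^ 2 + b * x + c = 0)
    (hz : ∀ z : ℂ, z ^ 2 + (x + a) * z + (x ^ 2 + a * x + b) = 0 → ‖z‖ < 1) :
    IsIrreduciblePisot σ := by
  have hirr := cubic_irreducible a b c hc h1 h2
  have hm : (X ^ 3 + C (a : ℚ) * X ^ 2 + C (b : ℚ) * X + C (c : ℚ) : ℚ[X]).Monic := by monicity!
  have hx' : aeval x (X ^ 3 + C (a : ℚ) * X ^ 2 + C (b : ℚ) * X + C (c : ℚ) : ℚ[X]) = 0 := by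
    simpa using hx
  have hmin := minpoly.eq_of_irreducible_of_monic hirr hx' hm
  have key : ∀ z : ℂ,
      aeval z (X ^ 3 + C (a : ℚ) * X ^ 2 + C (b : ℚ) * X + C (c : ℚ) : ℚ[X]) = 0 →
      z ≠ x → ‖z‖ < 1 := by
    intro z h hne
    apply hz
    have h' : z ^ 3 + a * z ^ 2 + b * z + c = 0 := by simpa using h
    have hxc : (x : ℂ) ^ 3 + a * (x : ℂ) ^ 2 + b * x + c = 0 := by exact_mod_cast hx
    apply mul_left_cancel₀ (sub_ne_zero.mpr hne)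
    linear_combination h' - hxc
  refine ⟨hp ▸ hirr, x, ⟨hx1, ?_, ?_⟩, hp ▸ hx', ?_⟩
  · refine ⟨X ^ 3 + C a * X ^ 2 + C b * X + C c, by monicity!, ?_⟩
    simp only [eval₂_add, eval₂_mul, eval₂_pow, eval₂_C, eval₂_X]
    simpa using hx
  · rw [← hmin]
    exact key
  · intro z h
    rw [hp] at h
    by_cases hne : z = x
    · rw [hne, Complex.norm_real, Real.norm_eq_abs, abs_of_pos (by linarith)]
    · exact ((key z h hne).trans hx1).le

lemma norm_lt_one_of_sq {z : ℂ} (h : z.re ^ 2 + z.im ^ 2 < 1) : ‖z‖ < 1 := by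
  have h2 : ‖z‖ ^ 2 = z.re ^ 2 + z.im ^ 2 := by
    rw [Complex.sq_norm, Complex.normSq_apply]; ring
  nlinarith [norm_nonneg z]

lemma reverse_cubic (a b c : ℚ) :
    (X ^ 3 + C a * X ^ 2 + C b * X + C c : ℚ[X]).reverse
      = C c * X ^ 3 + C b * X ^ 2 + C a * X + 1 := by
  have hd : (X ^ 3 + C a * X ^ 2 + C b * X + C c : ℚ[X]).natDegree = 3 := by compute_degree!
  rw [Polynomial.reverse, hd]
  have e1 : (X : ℚ[X]) = X ^ 1 := (pow_one _).symm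
  rw [reflect_add, reflect_add, reflect_add, reflect_monomial, reflect_C_mul_X_pow, reflect_C]
  nth_rewrite 3 [e1]
  rw [reflect_C_mul_X_pow]
  rw [revAt_le (by norm_num), revAt_le (by norm_num), revAt_le (by norm_num)]
  norm_num
  ring

/-! ### The example of determinant `1`. -/

def s1 : Fin 3 → List (Fin 3) := ![[1], [1, 2], [0, 1, 2]]
def e1 : Fin 3 → List (Fin 3) × List (Fin 3) := ![([1, 2], [2, 1]), ([0], [0]), ([1], [1])]
def t1 : Fin 3 → List (Fin 3) := ![[0, 1, 0], [2], [0]]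

lemma inc_s1 : incidence s1 = !![0, 0, 1; 1, 1, 1; 0, 1, 1] := by
  ext i j
  fin_cases i <;> fin_cases j <;> simp [incidence, s1]

lemma inc_t1 : incidence t1 = !![2, 0, 1; 1, 0, 0; 0, 1, 0] := by
  ext i j
  fin_cases i <;> fin_cases j <;> simp [incidence, t1]

lemma cp_s1 : (incidence s1).charpoly
    = X ^ 3 + C ((-2 : ℤ) : ℚ) * X ^ 2 + C ((0 : ℤ) : ℚ) * X + C ((-1 : ℤ) : ℚ) := by
  rw [inc_s1, Matrix.charpoly, Matrix.det_fin_three]
  simp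
  have : (C (2 : ℚ)) = 2 := rfl
  rw [this]
  ring

lemma pisot_s1 : IsIrreduciblePisot s1 := by
  obtain ⟨x, ⟨hx2, hx3⟩, hx⟩ : ∃ x ∈ Set.Icc (2 : ℝ) 3, x ^ 3 - 2 * x ^ 2 - 1 = 0 := by
    have := intermediate_value_Icc (a := (2 : ℝ)) (b := 3) (by norm_num)
      (f := fun x : ℝ => x ^ 3 - 2 * x ^ 2 - 1) (by fun_prop)
    exact this (by norm_num : (0 : ℝ) ∈ Set.Icc _ _)
  refine pisot_of_cubic s1 (-2) 0 (-1) (by simp) (by norm_num) (by norm_num) cp_s1 x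
    (by linarith) (by push_cast; linarith) ?_
  intro z hz
  apply norm_lt_one_of_sq
  have hre := congrArg Complex.re hz
  have him := congrArg Complex.im hz
  simp [pow_two] at hre him
  have hc : x * x - 2 * x ≤ 1 / 2 := by nlinarith
  have hx' : x ≤ 5 / 2 := by nlinarith
  by_cases hb : z.im = 0
  · rw [hb] at hre ⊢
    nlinarith [sq_nonneg (2 * z.re + (x - 2))]
  · have : 2 * z.re + (x - 2) = 0 := by
      apply mul_left_cancel₀ hb
      linarith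
    have h3 : x - 2 = -2 * z.re := by linarith
    nlinarith

lemma not_dvd_1 : ¬ (incidence s1).charpoly.reverse ∣ (incidence t1).charpoly := by
  rw [cp_s1, reverse_cubic, inc_t1]
  intro h
  obtain ⟨z, v, hq, hv, hh⟩ := exists_eigen_of_dvd _ _ (by
    have : (C ((-1 : ℤ) : ℚ) * X ^ 3 + C ((0 : ℤ) : ℚ) * X ^ 2 + C ((-2 : ℤ) : ℚ) * X + 1 :
      ℚ[X]).degree = 3 := by compute_degree!
    rw [this]; norm_num) h
  replace hq : -z ^ 3 - 2 * z + 1 = 0 := by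
    simp at hq
    linear_combination hq
  have h0 : z * v 0 - (2 * v 0 + v 2) = 0 := by simpa [Fin.sum_univ_succ] using hh 0
  have h1 : z * v 1 - v 0 = 0 := by simpa [Fin.sum_univ_succ] using hh 1
  have h2 : z * v 2 - v 1 = 0 := by simpa [Fin.sum_univ_succ] using hh 2
  have g0 : v 0 = 0 := by
    linear_combination ((-1/8) + (-1/8) * z + (1/8) * z ^ 2) * h0 + ((-5/8) + (-1/8) * z + (-3/8) * z ^ 2) * h1 + ((-3/8) + (1/8) * z + (-1/8) * z ^ 2) * h2 - ((-1/8) * v 0 + (3/8) * v 1 + (1/8) * v 2) * hq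
  have g1 : v 1 = 0 := by
    linear_combination ((-3/8) + (1/8) * z + (-1/8) * z ^ 2) * h0 + ((5/8) + (-3/8) * z + (3/8) * z ^ 2) * h1 + ((-5/8) + (-1/8) * z + (-3/8) * z ^ 2) * h2 - ((1/8) * v 0 + (-3/8) * v 1 + (3/8) * v 2) * hq
  have g2 : v 2 = 0 := by
    linear_combination ((-5/8) + (-1/8) * z + (-3/8) * z ^ 2) * h0 + ((7/8) + (3/8) * z + (5/8) * z ^ 2) * h1 + ((5/8) + (-3/8) * z + (3/8) * z ^ 2) * h2 - ((3/8) * v 0 + (-5/8) * v 1 + (-3/8) * v 2) * hq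
  apply hv
  ext i
  fin_cases i <;> assumption

/-! ### The example of determinant `-1`. -/

def s2 : Fin 3 → List (Fin 3) := ![[1], [0, 2, 1], [2, 1]]
def e2 : Fin 7 → List (Fin 3) × List (Fin 3) :=
  ![([2, 1], [1, 2]), ([0], [0]), ([1], [1]), ([0, 2, 1], [1, 2, 0]), ([2], [2]),
    ([1, 0], [0, 1]), ([0, 2, 1, 1], [1, 1, 2, 0])]
def t2 : Fin 7 → List (Fin 7) :=
  ![[0, 1, 0], [2], [3], [2, 4, 5, 4, 2], [0], [6], [2, 4, 5, 4, 5, 4, 2]]

lemma inc_s2 : incidence s2 = !![0, 1, 0; 1, 1, 1; 0, 1, 1] := by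
  ext i j
  fin_cases i <;> fin_cases j <;> simp [incidence, s2]

lemma inc_t2 : incidence t2 = !![2, 0, 0, 0, 1, 0, 0; 1, 0, 0, 0, 0, 0, 0; 0, 1, 0, 2, 0, 0, 2;
    0, 0, 1, 0, 0, 0, 0; 0, 0, 0, 2, 0, 0, 3; 0, 0, 0, 1, 0, 0, 2; 0, 0, 0, 0, 0, 1, 0] := by
  ext i j
  fin_cases i <;> fin_cases j <;> simp [incidence, t2]

lemma cp_s2 : (incidence s2).charpoly
    = X ^ 3 + C ((-2 : ℤ) : ℚ) * X ^ 2 + C ((-1 : ℤ) : ℚ) * X + C ((1 : ℤ) : ℚ) := by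
  rw [inc_s2, Matrix.charpoly, Matrix.det_fin_three]
  simp
  have : (C (2 : ℚ)) = 2 := rfl
  rw [this]
  ring

lemma pisot_s2 : IsIrreduciblePisot s2 := by
  obtain ⟨x, ⟨hx2, hx3⟩, hx⟩ :
      ∃ x ∈ Set.Icc (11 / 5 : ℝ) (23 / 10), x ^ 3 - 2 * x ^ 2 - x + 1 = 0 := by
    have := intermediate_value_Icc (a := (11 / 5 : ℝ)) (b := 23 / 10) (by norm_num)
      (f := fun x : ℝ => x ^ 3 - 2 * x ^ 2 - x + 1) (by fun_prop)
    exact this (by norm_num : (0 : ℝ) ∈ Set.Icc _ _)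
  refine pisot_of_cubic s2 (-2) (-1) 1 (by simp) (by norm_num) (by norm_num) cp_s2 x
    (by linarith) (by push_cast; linarith) ?_
  intro z hz
  apply norm_lt_one_of_sq
  have hre := congrArg Complex.re hz
  have him := congrArg Complex.im hz
  simp [pow_two] at hre him
  have hc : x * x - 2 * x - 1 ≤ -3 / 10 := by nlinarith
  have hc' : -3 / 5 ≤ x * x - 2 * x - 1 := by nlinarith
  by_cases hb : z.im = 0
  · rw [hb] at hre ⊢
    by_contra hcon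
    have h4 : 1 ≤ z.re ^ 2 := by linarith
    rcases le_total 0 z.re with h5 | h5
    · nlinarith
    · have h6 : z.re ≤ -1 := by nlinarith
      nlinarith
  · have : 2 * z.re + (x - 2) = 0 := by
      apply mul_left_cancel₀ hb
      linarith
    have h3 : x - 2 = -2 * z.re := by linarith
    nlinarith

lemma not_dvd_2 : ¬ (incidence s2).charpoly.reverse ∣ (incidence t2).charpoly := by
  rw [cp_s2, reverse_cubic, inc_t2]
  intro h
  obtain ⟨z, v, hq, hv, hh⟩ := exists_eigen_of_dvd _ _ (by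
    have : (C ((1 : ℤ) : ℚ) * X ^ 3 + C ((-1 : ℤ) : ℚ) * X ^ 2 + C ((-2 : ℤ) : ℚ) * X + 1 :
      ℚ[X]).degree = 3 := by compute_degree!
    rw [this]; norm_num) h
  replace hq : z ^ 3 - z ^ 2 - 2 * z + 1 = 0 := by
    simp at hq
    linear_combination hq
  have h0 : z * v 0 - (2 * v 0 + v 4) = 0 := by simpa [Fin.sum_univ_succ] using hh 0
  have h1 : z * v 1 - v 0 = 0 := by simpa [Fin.sum_univ_succ] using hh 1
  have h2 : z * v 2 - (v 1 + (2 * v 3 + 2 * v 6)) = 0 := by simpa [Fin.sum_univ_succ] using hh 2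
  have h3 : z * v 3 - v 2 = 0 := by simpa [Fin.sum_univ_succ] using hh 3
  have h4 : z * v 4 - (2 * v 3 + 3 * v 6) = 0 := by simpa [Fin.sum_univ_succ] using hh 4
  have h5 : z * v 5 - (v 3 + 2 * v 6) = 0 := by simpa [Fin.sum_univ_succ] using hh 5
  have h6 : z * v 6 - v 5 = 0 := by simpa [Fin.sum_univ_succ] using hh 6
  have g0 : v 0 = 0 := by
    linear_combination ((1) + (1/2) * z + (-1/2) * z ^ 2) * h0 + ((-5/2) + (-1) * z + (1) * z ^ 2) * h1 + ((-1) + (-1/2) * z + (0) * z ^ 2) * h2 + ((0) + (-1) * z + (-1/2) * z ^ 2) * h3 + ((5/2) + (1/2) * z + (-1) * z ^ 2) * h4 + ((-5/2) + (-1) * z + (1/2) * z ^ 2) * h5 + ((-1/2) + (-3/2) * z + (-1/2) * z ^ 2) * h6 - ((-1/2) * v 0 + (1) * v 1 + (-1/2) * v 3 + (-1) * v 4 + (1/2) * v 5 + (-1/2) * v 6) * hq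
  have g1 : v 1 = 0 := by
    linear_combination ((5/2) + (1/2) * z + (-1) * z ^ 2) * h0 + ((-4) + (-1/2) * z + (3/2) * z ^ 2) * h1 + ((-5/2) + (-1) * z + (1) * z ^ 2) * h2 + ((-1) + (-1/2) * z + (0) * z ^ 2) * h3 + ((11/2) + (3/2) * z + (-5/2) * z ^ 2) * h4 + ((-6) + (-2) * z + (5/2) * z ^ 2) * h5 + ((-5/2) + (-1) * z + (1/2) * z ^ 2) * h6 - ((-1) * v 0 + (3/2) * v 1 + (1) * v 2 + (-5/2) * v 4 + (5/2) * v 5 + (1/2) * v 6) * hq
  have g2 : v 2 = 0 := by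
    linear_combination ((-3/2) + (-1/2) * z + (1/2) * z ^ 2) * h0 + ((5/2) + (1/2) * z + (-1) * z ^ 2) * h1 + ((1) + (1/2) * z + (-1/2) * z ^ 2) * h2 + ((-1/2) + (0) * z + (0) * z ^ 2) * h3 + ((-7/2) + (-1) * z + (3/2) * z ^ 2) * h4 + ((5) + (1/2) * z + (-2) * z ^ 2) * h5 + ((2) + (1) * z + (-3/2) * z ^ 2) * h6 - ((1/2) * v 0 + (-1) * v 1 + (-1/2) * v 2 + (3/2) * v 4 + (-2) * v 5 + (-3/2) * v 6) * hq
  have g3 : v 3 = 0 := by
    linear_combination ((-7/2) + (-1) * z + (3/2) * z ^ 2) * h0 + ((11/2) + (3/2) * z + (-5/2) * z ^ 2) * h1 + ((5/2) + (1/2) * z + (-1) * z ^ 2) * h2 + ((1) + (1/2) * z + (-1/2) * z ^ 2) * h3 + ((-8) + (-2) * z + (7/2) * z ^ 2) * h4 + ((21/2) + (3) * z + (-5) * z ^ 2) * h5 + ((5) + (1/2) * z + (-2) * z ^ 2) * h6 - ((3/2) * v 0 + (-5/2) * v 1 + (-1) * v 2 + (-1/2) * v 3 + (7/2) * v 4 + (-5) * v 5 + (-2) * v 6) * hq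
  have g4 : v 4 = 0 := by
    linear_combination ((-5/2) + (-1) * z + (1) * z ^ 2) * h0 + ((4) + (3/2) * z + (-2) * z ^ 2) * h1 + ((2) + (0) * z + (-1/2) * z ^ 2) * h2 + ((1/2) + (1) * z + (-1/2) * z ^ 2) * h3 + ((-4) + (-1/2) * z + (3/2) * z ^ 2) * h4 + ((9/2) + (1/2) * z + (-3/2) * z ^ 2) * h5 + ((3/2) + (3/2) * z + (-1) * z ^ 2) * h6 - ((1) * v 0 + (-2) * v 1 + (-1/2) * v 2 + (-1/2) * v 3 + (3/2) * v 4 + (-3/2) * v 5 + (-1) * v 6) * hq
  have g5 : v 5 = 0 := by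
    linear_combination ((1) + (0) * z + (-1/2) * z ^ 2) * h0 + ((-3/2) + (0) * z + (1/2) * z ^ 2) * h1 + ((-1/2) + (-1/2) * z + (1/2) * z ^ 2) * h2 + ((-1/2) + (1/2) * z + (0) * z ^ 2) * h3 + ((2) + (1/2) * z + (-1) * z ^ 2) * h4 + ((-3) + (-1/2) * z + (3/2) * z ^ 2) * h5 + ((-5/2) + (0) * z + (1) * z ^ 2) * h6 - ((-1/2) * v 0 + (1/2) * v 1 + (1/2) * v 2 + (-1) * v 4 + (3/2) * v 5 + (1) * v 6) * hq
  have g6 : v 6 = 0 := by
    linear_combination ((2) + (1/2) * z + (-1) * z ^ 2) * h0 + ((-3) + (-1) * z + (3/2) * z ^ 2) * h1 + ((-3/2) + (0) * z + (1/2) * z ^ 2) * h2 + ((-1/2) + (-1/2) * z + (1/2) * z ^ 2) * h3 + ((9/2) + (1) * z + (-2) * z ^ 2) * h4 + ((-13/2) + (-3/2) * z + (3) * z ^ 2) * h5 + ((-3) + (-1/2) * z + (3/2) * z ^ 2) * h6 - ((-1) * v 0 + (3/2) * v 1 + (1/2) * v 2 + (1/2) * v 3 + (-2) * v 4 + (3) * v 5 + (3/2) * v 6) * hq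
  apply hv
  ext i
  fin_cases i <;> assumption

end Pool.Agent.P.MP_7b40b5_an
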